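import Mathlib
import Pool.Agent.Zk12.HD.Stm
import Pool.Agent.Zk12.HD.Stm2
import Pool.Agent.Zk78.HT.FinF

/-!
# Project HD: the assembly for the quadratic twists by `D(t_0)`, `D` of odd degree
-/

set_option autoImplicit false
set_option linter.all false

open Polynomial IsDedekindDomain NumberField

namespace Pool.Agent.Zk78.HD

open Pool.Agent.TH954 Pool.Agent.Zk12.FG Pool.Agent.Zk12.HT Pool.Agent.Zk12.HD
open Pool.Agent.Zk94.FG (S_ULT2 ult)
open Pool.Agent.Zk78.HT (Gm Dv)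
open Pool.Agent.Zk78.HTF

/-- the value of the polynomial is zero, twist by a uniformizer times a square -/
theorem dv_zero2 {k F Ω B : Type} [Field k] [Field F] [Field Ω] [Field B] [Algebra k F]
    [Algebra F Ω] [Algebra k Ω] [Algebra k B] {s : GalSection k F Ω B} {d : k} {f : k[X]} {x : F}
    {L : Type} [Field L] {ϖ η₀ : L} (hϖ : ∀ a b : L, b ≠ 0 → a ^ 2 ≠ ϖ * b ^ 2) (hη₀ : η₀ ≠ 0)
    {φ φ' : k →+* L}
    (hφf : f.map φ' = f.map φ) (hφd : φ' d = ϖ * φ d * η₀ ^ 2) {u : Option L}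
    (h : Dat s d f x φ u) (h' : Dat s d f x φ' u) : Dv (f.map φ) u = 0 := by
  by_contra hne
  obtain ⟨η, h1⟩ := h.sq
  obtain ⟨η', h2⟩ := h'.sq
  rw [hφf, h1, hφd] at h2
  rw [h1] at hne
  have ht : φ d ≠ 0 := left_ne_zero_of_mul hne
  have h3 : η ^ 2 = ϖ * (η₀ * η') ^ 2 := by
    apply mul_left_cancel₀ ht
    rw [h2]
    ring
  refine hϖ η (η₀ * η') ?_ h3
  intro h0
  rw [h0, zero_pow two_ne_zero, mul_zero] at h3
  rw [h3, mul_zero] at hne
  exact hne rfl

/-- **the assembly** -/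
theorem finD (hEMBD : Pool.Agent.Zk12.HD.S_EMBD) (hOBS : S_OBSF)
    (hKOE : Pool.Agent.N890.KO.S_KOE) (hPOW : S_POWF) : Pool.Agent.Zk12.HD.S_FIND := by
  intro k₁ k F Ω B _ _ _ _ _ _ _ _ _ _ _ _ _ _ t₀ f D x y hfg₁ htr hgen hodd hf0 heven hxtr halg
    heqn s e m₀ H
  classical
  haveI : CharZero k := charZero_of_injective_algebraMap (algebraMap k₁ k).injective
  have hfg := fg_cons hfg₁ hgen
  have hD0 : D ≠ 0 := by
    rintro rfl
    rw [natDegree_zero] at hodd
    exact absurd hodd (by decide)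
  have hd0 : aeval t₀ D ≠ 0 := fun h => htr ⟨D, hD0, h⟩
  have hfk0 : f.map (algebraMap k₁ k) ≠ 0 := by
    rw [Ne, Polynomial.map_eq_zero]
    exact hf0
  have hev : Even (f.map (algebraMap k₁ k)).natDegree := by
    rw [natDegree_map]
    exact heven
  have hxf : aeval x (f.map (algebraMap k₁ k)) ≠ 0 := fun h => hxtr ⟨_, hfk0, h⟩
  choose pl hpl using fun i : EmbF k => koe_embF hKOE s i
  have hva : ∀ i, (pl i).val (algebraMap F Ω (aeval x (f.map (algebraMap k₁ k)))) 0 := by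
    intro i
    haveI := charZero_fld (algebraMap i.F (i.w.adicCompletion i.F))
    obtain ⟨ϖ, φ', η, hη, hϖ2, h1, h2⟩ := hEMBD k₁ k t₀ htr hgen D hodd i.F i.w i.φ
    let i' : EmbF k := ⟨i.F, i.nf, i.w, φ'⟩
    obtain ⟨u, hu, hv⟩ := dat_embF s i (pl i) (hpl i) hd0 hev heqn
    obtain ⟨u', hu', -⟩ := dat_embF s i' (pl i') (hpl i') hd0 hev heqn
    have huu : u = u' := unique_u H (hPOW i.F i.w) h1 hu hu'
    rw [← huu] at hu'
    have hmap : (f.map (algebraMap k₁ k)).map φ' = (f.map (algebraMap k₁ k)).map i.φ := by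
      rw [Polynomial.map_map, Polynomial.map_map]
      congr 1
      exact RingHom.ext fun c => h1 c
    have hD := dv_zero2 hϖ2 hη hmap h2 hu hu'
    have hne : ∃ ξ, u = some ξ := by
      match u, hD with
      | none, hD =>
        exfalso
        change ((f.map (algebraMap k₁ k)).map i.φ).leadingCoeff = 0 at hD
        rw [leadingCoeff_eq_zero, Polynomial.map_eq_zero] at hD
        exact hfk0 hD
      | some ξ, _ => exact ⟨ξ, rfl⟩
    obtain ⟨ξ, hξ⟩ := hne
    exact hv ξ hξ hD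
  obtain ⟨O, h1, h2, h3⟩ := ult k F Ω B (EmbF k) (fun i => FL i) (fun i => FC i)
    (obs_embF hOBS k B hfg) (two_divF hOBS hPOW k B hfg) ⟨x, hxtr, halg⟩ s pl
    (fun i => hpl i) (aeval x (f.map (algebraMap k₁ k))) hxf hva
  exact ⟨O, h1, h2, h3⟩

end Pool.Agent.Zk78.HD
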