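import Mathlib

/-!
# Valuation rings in algebraic extensions: residue fields, stable rings
-/

set_option autoImplicit false
set_option linter.all false

open Polynomial

namespace Pool.Agent.Zk78.HD

section

variable {Ω : Type} [Field Ω]

theorem vlt (O : ValuationSubring Ω) (z : Ω) : O.valuation z < 1 ↔ z = 0 ∨ z⁻¹ ∉ O := by
  by_cases hz : z = 0
  · simp [hz]
  · have h0 : O.valuation z ≠ 0 := (Valuation.ne_zero_iff _).2 hz
    have h1 : 0 < O.valuation z := zero_lt_iff.2 h0
    rw [← ValuationSubring.valuation_le_one_iff, map_inv₀, inv_le_one₀ h1, not_le]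
    exact ⟨fun h => Or.inr h, fun h => h.resolve_left hz⟩

theorem int_mem (V : ValuationSubring Ω) {R : Type} [CommRing R] [Algebra R Ω]
    (h : ∀ r : R, algebraMap R Ω r ∈ V) {z : Ω} (hz : IsIntegral R z) : z ∈ V := by
  obtain ⟨p, hp, h0⟩ := hz
  let θ : R →+* V := (algebraMap R Ω).codRestrict V h
  have h1 : IsIntegral V z := by
    refine ⟨p.map θ, hp.map _, ?_⟩
    rw [eval₂_map]
    exact h0
  obtain ⟨y, hy⟩ := (IsIntegrallyClosed.isIntegral_iff (R := V) (K := Ω)).1 h1
  rw [← hy]
  exact y.2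

theorem le_of_stable {H : Type} [Group H] (a : H →* (Ω ≃+* Ω)) (W V : ValuationSubring Ω)
    (hfin : ∀ z : Ω, (Set.range fun h => a h z).Finite)
    (hW : ∀ h z, a h z ∈ W ↔ z ∈ W) (hWV : ∀ z, (∀ h, a h z = z) → z ∈ W → z ∈ V) : W ≤ V := by
  classical
  intro z hz
  let S : Finset Ω := (hfin z).toFinset
  have hS : ∀ w, w ∈ S ↔ ∃ h, a h z = w := by
    intro w
    rw [Set.Finite.mem_toFinset]
    exact Iff.rfl
  let P : Polynomial Ω := ∏ w ∈ S, (X - C w)
  have hmon : P.Monic := monic_prod_of_monic _ _ fun w _ => monic_X_sub_C w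
  have hPmap : ∀ h, P.map (a h : Ω →+* Ω) = P := by
    intro h
    show (∏ w ∈ S, (X - C w)).map _ = ∏ w ∈ S, (X - C w)
    rw [Polynomial.map_prod]
    refine Finset.prod_nbij (fun w => a h w) ?_ ?_ ?_ ?_
    · intro w hw
      obtain ⟨h', rfl⟩ := (hS w).1 hw
      refine (hS _).2 ⟨h * h', ?_⟩
      rw [map_mul]
      rfl
    · intro w _ w' _ hww
      exact (a h).injective hww
    · intro w hw
      obtain ⟨h', rfl⟩ := (hS w).1 (Finset.mem_coe.1 hw)
      refine ⟨a (h⁻¹ * h') z, Finset.mem_coe.2 ((hS _).2 ⟨_, rfl⟩), ?_⟩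
      show a h (a (h⁻¹ * h') z) = a h' z
      rw [← RingAut.mul_apply, ← map_mul, mul_inv_cancel_left]
    · intro w _
      simp
  have hcW : ∀ n, P.coeff n ∈ W := by
    have h1 : P ∈ Polynomial.lifts W.subtype := by
      refine Subsemiring.prod_mem _ fun w hw => ?_
      obtain ⟨h', rfl⟩ := (hS w).1 hw
      have h2 : a h' z ∈ W := (hW h' z).2 hz
      refine (Polynomial.mem_lifts _).2 ⟨X - C ⟨a h' z, h2⟩, ?_⟩
      simp
    intro n
    obtain ⟨y, hy⟩ := (Polynomial.lifts_iff_coeff_lifts _).1 h1 n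
    rw [← hy]
    exact y.2
  have hcV : ∀ n, P.coeff n ∈ V := by
    intro n
    refine hWV _ (fun h => ?_) (hcW n)
    conv_rhs => rw [← hPmap h]
    rw [coeff_map]
    rfl
  have h2 : P ∈ Polynomial.lifts V.subtype :=
    (Polynomial.lifts_iff_coeff_lifts _).2 fun n => ⟨⟨_, hcV n⟩, rfl⟩
  obtain ⟨q, hq, -, hqm⟩ := Polynomial.lifts_and_natDegree_eq_and_monic h2 hmon
  have hz0 : P.eval z = 0 := by
    show (∏ w ∈ S, (X - C w)).eval z = 0
    rw [eval_prod]
    refine Finset.prod_eq_zero ((hS z).2 ⟨1, ?_⟩) (by simp)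
    rw [map_one]
    rfl
  have h3 : IsIntegral V z := by
    refine ⟨q, hqm, ?_⟩
    rw [← hq, eval_map] at hz0
    exact hz0
  obtain ⟨y, hy⟩ := (IsIntegrallyClosed.isIntegral_iff (R := V) (K := Ω)).1 h3
  rw [← hy]
  exact y.2

end

/-- the residue field of a valuation ring above a rational point -/
theorem res_alg {k F Ω B : Type} [Field k] [Field F] [Field Ω] [Field B] [Algebra k F]
    [Algebra F Ω] [Algebra k Ω] [Algebra k B] [IsScalarTower k F Ω] [Algebra.IsAlgebraic F Ω]
    [IsAlgClosure k B] (j : B →ₐ[k] Ω) (O : ValuationSubring F)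
    (hO1 : ∀ c : k, algebraMap k F c ∈ O)
    (hO2 : ∀ a ∈ O, ∃ c : k, O.valuation (a - algebraMap k F c) < 1) (W : ValuationSubring Ω)
    (hW : W.comap (algebraMap F Ω) = O) (a : Ω) (ha : a ∈ W) :
    ∃ b : B, W.valuation (a - j b) < 1 := by
  classical
  haveI : IsAlgClosed B := IsAlgClosure.isAlgClosed k
  have hmem : ∀ z : F, algebraMap F Ω z ∈ W ↔ z ∈ O := by
    intro z
    rw [← hW]
    exact Iff.rfl
  have hv : ∀ z : F, O.valuation z < 1 → W.valuation (algebraMap F Ω z) < 1 := by
    intro z hz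
    rw [vlt] at hz ⊢
    rcases hz with hz | hz
    · left
      rw [hz, map_zero]
    · right
      rw [← map_inv₀, hmem]
      exact hz
  obtain ⟨P, hP0, hPa⟩ := Algebra.IsAlgebraic.isAlgebraic (R := F) a
  obtain ⟨i, hi, himax⟩ := P.support.exists_max_image (fun n => O.valuation (P.coeff n))
    (Polynomial.support_nonempty.2 hP0)
  have hi0 : P.coeff i ≠ 0 := Polynomial.mem_support_iff.1 hi
  have hle : ∀ n, O.valuation (P.coeff n) ≤ O.valuation (P.coeff i) := by
    intro n
    by_cases hn : n ∈ P.support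
    · exact himax n hn
    · rw [Polynomial.notMem_support_iff.1 hn, map_zero]
      exact zero_le'
  have hq : ∀ n, (P.coeff i)⁻¹ * P.coeff n ∈ O := by
    intro n
    rw [← ValuationSubring.valuation_le_one_iff, map_mul, map_inv₀]
    have h1 : 0 < O.valuation (P.coeff i) := zero_lt_iff.2 ((Valuation.ne_zero_iff _).2 hi0)
    rw [inv_mul_le_iff₀ h1, mul_one]
    exact hle n
  choose c hc using fun n => hO2 _ (hq n)
  let R : k[X] := ∑ n ∈ Finset.range (P.natDegree + 1), C (c n) * X ^ n
  have hRc : ∀ n, n < P.natDegree + 1 → R.coeff n = c n := by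
    intro n hn
    show (∑ n ∈ Finset.range (P.natDegree + 1), C (c n) * X ^ n).coeff n = c n
    rw [Polynomial.finset_sum_coeff]
    simp only [Polynomial.coeff_C_mul, Polynomial.coeff_X_pow]
    rw [Finset.sum_eq_single n]
    · simp
    · intro m _ hmn
      simp [hmn.symm]
    · intro h
      exact absurd (Finset.mem_range.2 hn) h
  have hcunit : ∀ z : k, z ≠ 0 → W.valuation (algebraMap k Ω z) = 1 := by
    intro z hz
    have h1 : ∀ y : k, W.valuation (algebraMap k Ω y) ≤ 1 := by
      intro y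
      rw [ValuationSubring.valuation_le_one_iff, IsScalarTower.algebraMap_apply k F Ω, hmem]
      exact hO1 y
    apply le_antisymm (h1 z)
    have h2 := h1 z⁻¹
    have h0 : algebraMap k Ω z ≠ 0 := (_root_.map_ne_zero _).2 hz
    have h3 : 0 < W.valuation (algebraMap k Ω z) := zero_lt_iff.2 ((Valuation.ne_zero_iff _).2 h0)
    rwa [map_inv₀, map_inv₀, inv_le_one₀ h3] at h2
  have hci : c i ≠ 0 := by
    intro h
    have h1 := hc i
    rw [h, map_zero, sub_zero, inv_mul_cancel₀ hi0, map_one] at h1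
    exact lt_irrefl _ h1
  have hR0 : R ≠ 0 := by
    intro h
    apply hci
    rw [← hRc i (Nat.lt_succ_of_le (Polynomial.le_natDegree_of_mem_supp _ hi)), h, coeff_zero]
  -- the value of `R` at `a`
  have hRa : W.valuation (aeval a R) < 1 := by
    have h1 : aeval a R = ∑ n ∈ Finset.range (P.natDegree + 1), algebraMap k Ω (c n) * a ^ n := by
      show aeval a (∑ n ∈ Finset.range (P.natDegree + 1), C (c n) * X ^ n) = _
      rw [map_sum]
      refine Finset.sum_congr rfl fun n _ => ?_
      simp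
    have h2 : ∑ n ∈ Finset.range (P.natDegree + 1),
        algebraMap F Ω ((P.coeff i)⁻¹ * P.coeff n) * a ^ n = 0 := by
      have h3 : aeval a P = ∑ n ∈ Finset.range (P.natDegree + 1),
          algebraMap F Ω (P.coeff n) * a ^ n := by
        rw [Polynomial.aeval_eq_sum_range]
        refine Finset.sum_congr rfl fun n _ => ?_
        rw [Algebra.smul_def]
      rw [hPa] at h3
      have h4 := congrArg (fun z => algebraMap F Ω (P.coeff i)⁻¹ * z) h3
      simp only [mul_zero, Finset.mul_sum] at h4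
      rw [h4]
      refine Finset.sum_congr rfl fun n _ => ?_
      rw [map_mul, mul_assoc]
    have h3 : aeval a R = ∑ n ∈ Finset.range (P.natDegree + 1),
        -(algebraMap F Ω ((P.coeff i)⁻¹ * P.coeff n - algebraMap k F (c n)) * a ^ n) := by
      rw [h1, ← sub_zero (∑ n ∈ Finset.range (P.natDegree + 1), algebraMap k Ω (c n) * a ^ n),
        ← h2, ← Finset.sum_sub_distrib]
      refine Finset.sum_congr rfl fun n _ => ?_
      rw [map_sub, ← IsScalarTower.algebraMap_apply k F Ω]
      ring
    rw [h3]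
    refine Valuation.map_sum_lt _ one_ne_zero fun n _ => ?_
    rw [Valuation.map_neg, map_mul, map_pow]
    have h5 := hv _ (hc n)
    have h6 : W.valuation a ^ n ≤ 1 := pow_le_one₀ zero_le' ((W.valuation_le_one_iff a).2 ha)
    exact mul_lt_one_of_lt_of_le h5 h6
  by_contra hcon
  push Not at hcon
  have hjb : ∀ b : B, j b ∈ W := by
    intro b
    refine int_mem W (R := k) ?_ ?_
    · intro r
      rw [IsScalarTower.algebraMap_apply k F Ω, hmem]
      exact hO1 r
    · have : Algebra.IsAlgebraic k B := IsAlgClosure.isAlgebraic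
      exact (Algebra.IsIntegral.isIntegral (R := k) b).map j
  have h1 : ∀ b : B, W.valuation (a - j b) = 1 := by
    intro b
    refine le_antisymm ?_ (hcon b)
    rw [ValuationSubring.valuation_le_one_iff]
    exact sub_mem ha (hjb b)
  have hs := IsAlgClosed.splits (R.map (algebraMap k B))
  have h2 := hs.eq_prod_roots
  have h3 : aeval a R = (((R.map (algebraMap k B)).map (j : B →+* Ω))).eval a := by
    rw [Polynomial.map_map, eval_map]
    show eval₂ (algebraMap k Ω) a R = _
    congr 1
    ext z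
    simp
  rw [h2] at h3
  rw [h3, Polynomial.map_mul, Polynomial.map_multiset_prod, eval_mul, eval_multiset_prod, map_mul,
    map_multiset_prod] at hRa
  have h4 : W.valuation (eval a (map (j : B →+* Ω) (C (R.map (algebraMap k B)).leadingCoeff))) = 1 := by
    rw [leadingCoeff_map]
    simp only [map_C, eval_C]
    rw [show (j : B →+* Ω) (algebraMap k B R.leadingCoeff) = algebraMap k Ω R.leadingCoeff from
      j.commutes _]
    exact hcunit _ (leadingCoeff_ne_zero.2 hR0)
  rw [h4, one_mul] at hRa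
  refine absurd hRa (not_lt.2 (le_of_eq ?_))
  symm
  apply Multiset.prod_eq_one
  intro v hv
  simp only [Multiset.map_map, Multiset.mem_map, Function.comp] at hv
  obtain ⟨b, -, rfl⟩ := hv
  simp only [Polynomial.map_sub, map_X, map_C, eval_sub, eval_X, eval_C]
  exact h1 b

end Pool.Agent.Zk78.HD
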