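import Mathlib
import Pool.Agent.TH954.SBir
import Pool.Agent.Zk12.HT.End
import Pool.Agent.Zk12.HD.Stm5
import Pool.Agent.Zk78.HD.Desc0

/-!
# Descent of the birational section conjecture along normal extensions
-/

set_option autoImplicit false
set_option linter.all false

open Polynomial IntermediateField

namespace Pool.Agent.Zk78.HD

open Pool.Agent.TH954

section

variable {k E F Ω B : Type} [Field k] [CharZero k] [Field E] [Algebra k E] [Normal k E] [Field F]
  [Field Ω] [Field B] [Algebra k F] [Algebra F Ω] [Algebra k Ω] [Algebra k B]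
  [IsScalarTower k F Ω] [IsAlgClosure F Ω] [IsAlgClosure k B] [Algebra E B] [IsScalarTower k E B]

/-- the fixed field of the automorphisms over `E` -/
def Fx (E : Type) [Field E] [Algebra k E] [Algebra E B] [IsScalarTower k E B]
    (s : GalSection k F Ω B) : IntermediateField F Ω where
  carrier := {y | ∀ g : B ≃ₐ[E] B, s.s (resScal k E B g) y = y}
  mul_mem' ha hb g := by rw [map_mul, ha g, hb g]
  add_mem' ha hb g := by rw [map_add, ha g, hb g]
  algebraMap_mem' c g := (s.s _).commutes c
  inv_mem' a ha g := by rw [map_inv₀, ha g]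

/-- the constants -/
def cE (E : Type) [Field E] [Algebra k E] [Algebra E B] [IsScalarTower k E B]
    (s : GalSection k F Ω B) : E →+* Fx E s where
  toFun e := ⟨s.j (algebraMap E B e), fun g => by
    rw [s.sec]
    congr 1
    exact g.commutes e⟩
  map_one' := Subtype.ext (by simp)
  map_mul' a b := Subtype.ext (by simp)
  map_zero' := Subtype.ext (by simp)
  map_add' a b := Subtype.ext (by simp)

theorem cE_apply (s : GalSection k F Ω B) (e : E) : ((cE E s e : Fx E s) : Ω) = s.j (algebraMap E B e) :=
  rfl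

theorem resScal_cont : Continuous (resScal k E B) := by
  haveI : Algebra.IsAlgebraic k B := IsAlgClosure.isAlgebraic
  haveI : Algebra.IsAlgebraic E B := Algebra.IsAlgebraic.tower_top (K := k) E
  refine continuous_of_continuousAt_one _ ?_
  rw [ContinuousAt, map_one, Filter.tendsto_def]
  intro V hV
  rw [krullTopology_mem_nhds_one_iff] at hV
  obtain ⟨M, hM, hMV⟩ := hV
  have hfg : M.FG := IntermediateField.essFiniteType_iff.1 inferInstance
  obtain ⟨T, hT⟩ := hfg
  rw [krullTopology_mem_nhds_one_iff]
  refine ⟨IntermediateField.adjoin E (T : Set B), ?_, ?_⟩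
  · exact IntermediateField.finiteDimensional_adjoin fun z _ => (Algebra.IsAlgebraic.isAlgebraic z).isIntegral
  · intro g hg
    apply hMV
    refine (IntermediateField.mem_fixingSubgroup_iff _ _).2 ?_
    rw [← hT]
    intro z hz
    have h3 : IntermediateField.adjoin k (T : Set B) ≤ IntermediateField.fixedField
        (Subgroup.zpowers (resScal k E B g)) := by
      rw [IntermediateField.adjoin_le_iff]
      intro y hy
      rw [SetLike.mem_coe, IntermediateField.mem_fixedField_iff]
      intro f hf
      have h4 : resScal k E B g y = y :=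
        (IntermediateField.mem_fixingSubgroup_iff _ _).1 hg y (IntermediateField.subset_adjoin _ _ hy)
      have h5 : resScal k E B g ∈ MulAction.stabilizer (B ≃ₐ[k] B) y := h4
      exact (Subgroup.zpowers_le.2 h5) hf
    exact (IntermediateField.mem_fixedField_iff _ _).1 (h3 hz) _ (Subgroup.mem_zpowers _)

/-- the homomorphism -/
noncomputable def sEh (E : Type) [Field E] [Algebra k E] [Algebra E B] [IsScalarTower k E B]
    (s : GalSection k F Ω B) : (B ≃ₐ[E] B) →* (Ω ≃ₐ[Fx E s] Ω) where
  toFun := fun g => AlgEquiv.ofRingEquiv (f := (s.s (resScal k E B g) : Ω ≃+* Ω)) (fun z => z.2 g)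
  map_one' := by
    ext z
    change s.s (resScal k E B 1) z = z
    rw [map_one, map_one]
    rfl
  map_mul' := fun g h => by
    ext z
    change s.s (resScal k E B (g * h)) z = s.s (resScal k E B g) (s.s (resScal k E B h) z)
    rw [map_mul, map_mul]
    rfl

theorem sEh_apply (s : GalSection k F Ω B) (g : B ≃ₐ[E] B) (z : Ω) :
    sEh E s g z = s.s (resScal k E B g) z := rfl

theorem sEh_cont (s : GalSection k F Ω B) : Continuous (sEh E s) := by
  have halg : Algebra.IsAlgebraic F Ω := IsAlgClosure.isAlgebraic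
  have hch : Algebra.IsAlgebraic (Fx E s) Ω := Algebra.IsAlgebraic.tower_top (K := F) (Fx E s)
  refine continuous_of_continuousAt_one _ ?_
  rw [ContinuousAt, map_one, Filter.tendsto_def]
  intro V hV
  rw [krullTopology_mem_nhds_one_iff] at hV
  obtain ⟨M, hM, hMV⟩ := hV
  have hfg : M.FG := IntermediateField.essFiniteType_iff.1 inferInstance
  obtain ⟨T, hT⟩ := hfg
  have h1 : {f : Ω ≃ₐ[F] Ω | ∀ z ∈ T, f z = z} ∈ nhds (1 : Ω ≃ₐ[F] Ω) := by
    rw [krullTopology_mem_nhds_one_iff]
    refine ⟨IntermediateField.adjoin F (T : Set Ω), ?_, ?_⟩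
    · exact IntermediateField.finiteDimensional_adjoin fun z _ => (halg.isAlgebraic z).isIntegral
    · intro f hf z hz
      exact (mem_fixingSubgroup_iff _ _).1 hf z (IntermediateField.subset_adjoin _ _ hz)
  have h2 := (s.cont.comp (resScal_cont (k := k) (E := E) (B := B))).tendsto 1
  rw [Function.comp_apply, map_one, map_one] at h2
  refine Filter.mem_of_superset (h2 h1) ?_
  intro g hg
  apply hMV
  refine (IntermediateField.mem_fixingSubgroup_iff _ _).2 ?_
  rw [← hT]
  intro z hz
  have h3 : IntermediateField.adjoin (Fx E s) (T : Set Ω) ≤ IntermediateField.fixedField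
      (Subgroup.zpowers (sEh E s g)) := by
    rw [IntermediateField.adjoin_le_iff]
    intro y hy
    rw [SetLike.mem_coe, IntermediateField.mem_fixedField_iff]
    intro f hf
    have h4 : sEh E s g y = y := hg y hy
    have h5 : sEh E s g ∈ MulAction.stabilizer (Ω ≃ₐ[Fx E s] Ω) y := h4
    exact (Subgroup.zpowers_le.2 h5) hf
  exact (IntermediateField.mem_fixedField_iff _ _).1 (h3 hz) _ (Subgroup.mem_zpowers _)

theorem mem_Fx {s : GalSection k F Ω B} {y : Ω} :
    y ∈ Fx E s ↔ ∀ g : B ≃ₐ[E] B, s.s (resScal k E B g) y = y := Iff.rfl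

theorem norm_E (g : B ≃ₐ[k] B) (e : E) : ∃ e' : E, g (algebraMap E B e) = algebraMap E B e' :=
  ⟨AlgEquiv.restrictNormal g E e, (AlgEquiv.restrictNormal_commutes g E e).symm⟩

theorem conj_E (g : B ≃ₐ[k] B) (h : B ≃ₐ[E] B) :
    ∃ h' : B ≃ₐ[E] B, resScal k E B h' = g⁻¹ * resScal k E B h * g := by
  refine ⟨AlgEquiv.ofRingEquiv (f := ((g⁻¹ * resScal k E B h * g : B ≃ₐ[k] B) : B ≃+* B)) ?_, ?_⟩
  · intro e
    obtain ⟨e', he'⟩ := norm_E (B := B) g e
    show g⁻¹ (h (g (algebraMap E B e))) = algebraMap E B e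
    rw [he', h.commutes, ← he']
    exact g.symm_apply_apply _
  · ext z
    rfl

theorem down_E (k : Type) {E B : Type} [Field k] [CharZero k] [Field E] [Algebra k E] [Field B]
    [Algebra k B] [IsAlgClosure k B] [Algebra E B] [IsScalarTower k E B] (b : B)
    (hb : ∀ h : B ≃ₐ[E] B, h b = b) : ∃ e : E, algebraMap E B e = b := by
  haveI : Algebra.IsAlgebraic k B := IsAlgClosure.isAlgebraic
  haveI : Algebra.IsAlgebraic E B := Algebra.IsAlgebraic.tower_top (K := k) E
  haveI : IsAlgClosed B := IsAlgClosure.isAlgClosed k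
  haveI : IsAlgClosure E B := ⟨inferInstance, inferInstance⟩
  haveI : CharZero E := charZero_of_injective_algebraMap (algebraMap k E).injective
  haveI : Normal E B := IsAlgClosure.normal E B
  haveI : IsGalois E B := ⟨⟩
  have h1 := (InfiniteGalois.mem_bot_iff_fixed (k := E) (K := B) b).2 hb
  exact IntermediateField.mem_bot.1 h1

theorem down_k (b : B) (hb : ∀ g : B ≃ₐ[k] B, g b = b) : ∃ c : k, algebraMap k B c = b := by
  haveI : Algebra.IsAlgebraic k B := IsAlgClosure.isAlgebraic
  haveI : Normal k B := IsAlgClosure.normal k B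
  haveI : IsGalois k B := ⟨⟩
  have h1 := (InfiniteGalois.mem_bot_iff_fixed (k := k) (K := B) b).2 hb
  exact IntermediateField.mem_bot.1 h1

theorem jb_mem (s : GalSection k F Ω B) (W : ValuationSubring Ω)
    (hk : ∀ c : k, algebraMap k Ω c ∈ W) (b : B) : s.j b ∈ W := by
  haveI : Algebra.IsAlgebraic k B := IsAlgClosure.isAlgebraic
  exact int_mem W (R := k) hk ((Algebra.IsIntegral.isIntegral (R := k) b).map s.j)

theorem jb_zero (s : GalSection k F Ω B) (W : ValuationSubring Ω)
    (hk : ∀ c : k, algebraMap k Ω c ∈ W) (b : B) (hb : W.valuation (s.j b) < 1) : b = 0 := by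
  by_contra h
  rcases (vlt W _).1 hb with h1 | h1
  · exact h ((map_eq_zero_iff _ s.j.injective).1 h1)
  · apply h1
    rw [← map_inv₀]
    exact jb_mem s W hk _

/-- the ring is given by the section over `E` -/
def Ar (E : Type) [Field E] [Algebra k E] [Algebra E B] [IsScalarTower k E B]
    (s : GalSection k F Ω B) (O' : ValuationSubring (Fx E s)) : Prop :=
  O' ≠ ⊤ ∧ (∀ e : E, cE E s e ∈ O') ∧ (∀ a ∈ O', ∃ e : E, O'.valuation (a - cE E s e) < 1) ∧
    ∃ W : ValuationSubring Ω, W.comap (algebraMap (Fx E s) Ω) = O' ∧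
      ∀ (g : B ≃ₐ[E] B) (x : Ω), (s.s (resScal k E B g) x ∈ W ↔ x ∈ W)

/-- the action -/
noncomputable def act (E : Type) [Field E] [Algebra k E] [Algebra E B] [IsScalarTower k E B]
    (s : GalSection k F Ω B) : (B ≃ₐ[E] B) →* (Ω ≃+* Ω) where
  toFun h := (s.s (resScal k E B h) : Ω ≃+* Ω)
  map_one' := by
    ext z
    change s.s (resScal k E B 1) z = z
    rw [map_one, map_one]
    rfl
  map_mul' g h := by
    ext z
    change s.s (resScal k E B (g * h)) z = s.s (resScal k E B g) (s.s (resScal k E B h) z)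
    rw [map_mul, map_mul]
    rfl

theorem act_fin (s : GalSection k F Ω B) (z : Ω) : (Set.range fun h => act E s h z).Finite := by
  haveI : Algebra.IsAlgebraic F Ω := IsAlgClosure.isAlgebraic
  have hint : IsIntegral F z := Algebra.IsIntegral.isIntegral z
  refine (Polynomial.rootSet_finite (minpoly F z) Ω).subset ?_
  rintro _ ⟨h, rfl⟩
  rw [Polynomial.mem_rootSet]
  refine ⟨minpoly.ne_zero hint, ?_⟩
  show aeval (s.s (resScal k E B h) z) (minpoly F z) = 0
  rw [Polynomial.aeval_algHom_apply, minpoly.aeval, map_zero]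

theorem Fx_stable (s : GalSection k F Ω B) (g : B ≃ₐ[k] B) {z : Ω} (hz : z ∈ Fx E s) :
    s.s g z ∈ Fx E s := by
  intro h
  obtain ⟨h', hh'⟩ := conj_E g h
  have h1 : resScal k E B h * g = g * resScal k E B h' := by
    rw [hh']
    group
  have h2 : s.s (resScal k E B h) (s.s g z) = s.s (resScal k E B h * g) z := by
    rw [map_mul]
    rfl
  rw [h2, h1, map_mul]
  show s.s g (s.s (resScal k E B h') z) = s.s g z
  rw [hz h']

theorem inv_app (s : GalSection k F Ω B) (g : B ≃ₐ[k] B) (z : Ω) : s.s g⁻¹ (s.s g z) = z := by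
  have h : s.s g⁻¹ (s.s g z) = s.s (g⁻¹ * g) z := by
    rw [map_mul]
    rfl
  rw [h, inv_mul_cancel, map_one]
  rfl

theorem desc_up (s : GalSection k F Ω B) (O' : ValuationSubring (Fx E s)) (hAr : Ar E s O')
    (hu : ∀ O'', Ar E s O'' → O'' = O') :
    s.ArisesFrom (O'.comap (algebraMap F (Fx E s))) ∧
    (∀ O₁, s.ArisesFrom O₁ → O₁ = O'.comap (algebraMap F (Fx E s))) ∧
    ∀ (x : F) (e : E), algebraMap F (Fx E s) x - cE E s e ∈ O'.nonunits →
      ∃ c : k, algebraMap k E c = e ∧
        x - algebraMap k F c ∈ (O'.comap (algebraMap F (Fx E s))).nonunits := by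
  haveI halg : Algebra.IsAlgebraic F Ω := IsAlgClosure.isAlgebraic
  obtain ⟨hO1, hO2, hO3, W, hW, hWs⟩ := hAr
  have hWm : ∀ z : Fx E s, (z : Ω) ∈ W ↔ z ∈ O' := by
    intro z
    rw [← hW]
    exact Iff.rfl
  have hcon : ∀ (O'' : ValuationSubring (Fx E s)) (V : ValuationSubring Ω),
      V.comap (algebraMap (Fx E s) Ω) = O'' → ∀ z : Fx E s,
      (O''.valuation z < 1 ↔ V.valuation (z : Ω) < 1) := by
    intro O'' V hV z
    rw [vlt, vlt, ← hV]
    have h1 : z = 0 ↔ (z : Ω) = 0 := by
      constructor
      · rintro rfl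
        rfl
      · intro h
        exact Subtype.ext h
    rw [h1]
    exact Iff.rfl
  have hkW : ∀ c : k, algebraMap k Ω c ∈ W := by
    intro c
    have h1 : algebraMap k Ω c = ((cE E s (algebraMap k E c) : Fx E s) : Ω) := by
      rw [cE_apply, ← IsScalarTower.algebraMap_apply k E B]
      exact (s.j.commutes c).symm
    rw [h1, hWm]
    exact hO2 _
  have hjW : ∀ b : B, s.j b ∈ W := jb_mem s W hkW
  -- one inclusion for all automorphisms
  have hone : ∀ (g : B ≃ₐ[k] B) (z : Ω), z ∈ W → s.s g⁻¹ z ∈ W := by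
    intro g
    let Wg : ValuationSubring Ω := W.comap (s.s g⁻¹ : Ω →+* Ω)
    have hWg : ∀ z, z ∈ Wg ↔ s.s g⁻¹ z ∈ W := fun z => Iff.rfl
    have hArg : Ar E s (Wg.comap (algebraMap (Fx E s) Ω)) := by
      refine ⟨?_, ?_, ?_, Wg, rfl, ?_⟩
      · intro htop
        apply hO1
        rw [eq_top_iff]
        intro z _
        rw [← hWm]
        have h1 : (⟨s.s g (z : Ω), Fx_stable s g z.2⟩ : Fx E s) ∈
            Wg.comap (algebraMap (Fx E s) Ω) := by
          rw [htop]
          trivial
        have h2 : s.s g⁻¹ (s.s g (z : Ω)) ∈ W := h1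
        rwa [inv_app] at h2
      · intro e
        show s.s g⁻¹ (s.j (algebraMap E B e)) ∈ W
        rw [s.sec]
        exact hjW _
      · intro a ha
        have ha' : s.s g⁻¹ (a : Ω) ∈ W := ha
        obtain ⟨e, he⟩ := hO3 ⟨s.s g⁻¹ (a : Ω), Fx_stable s g⁻¹ a.2⟩ ((hWm _).1 ha')
        rw [hcon O' W hW] at he
        obtain ⟨e', he'⟩ := norm_E (B := B) g e
        refine ⟨e', ?_⟩
        rw [hcon _ Wg rfl]
        have h1 : s.s g⁻¹ ((a : Ω) - s.j (algebraMap E B e')) =
            s.s g⁻¹ (a : Ω) - s.j (algebraMap E B e) := by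
          rw [map_sub, s.sec, ← he']
          congr 2
          exact g.symm_apply_apply _
        have he2 : W.valuation (s.s g⁻¹ (a : Ω) - s.j (algebraMap E B e)) < 1 := he
        rw [← h1, vlt] at he2
        show Wg.valuation ((a : Ω) - s.j (algebraMap E B e')) < 1
        rw [vlt]
        rcases he2 with h | h
        · exact Or.inl ((map_eq_zero_iff _ (s.s g⁻¹).injective).1 h)
        · right
          intro h3
          apply h
          rw [← map_inv₀]
          exact h3
      · intro h x
        show s.s g⁻¹ (s.s (resScal k E B h) x) ∈ W ↔ s.s g⁻¹ x ∈ W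
        obtain ⟨h', hh'⟩ := conj_E g h
        have h1 : g⁻¹ * resScal k E B h = resScal k E B h' * g⁻¹ := by
          rw [hh']
          group
        have h2 : s.s g⁻¹ (s.s (resScal k E B h) x) = s.s (g⁻¹ * resScal k E B h) x := by
          rw [map_mul]
          rfl
        rw [h2, h1, map_mul]
        exact hWs h' (s.s g⁻¹ x)
    have heq := hu _ hArg
    have hle : W ≤ Wg := by
      refine le_of_stable (act E s) W Wg (act_fin s) (fun h z => hWs h z) ?_
      intro z hz hzW
      have h1 : (⟨z, hz⟩ : Fx E s) ∈ O' := (hWm _).1 hzW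
      rw [← heq] at h1
      exact h1
    intro z hz
    exact hle hz
  have hstab : ∀ (g : B ≃ₐ[k] B) (x : Ω), s.s g x ∈ W ↔ x ∈ W := by
    intro g x
    constructor
    · intro h
      have h1 := hone g _ h
      rwa [inv_app] at h1
    · intro h
      have h1 := hone g⁻¹ _ h
      rwa [inv_inv] at h1
  have hvst : ∀ (g : B ≃ₐ[k] B) (x : Ω), W.valuation x < 1 → W.valuation (s.s g x) < 1 := by
    intro g x hx
    rw [vlt] at hx ⊢
    rcases hx with h | h
    · left
      rw [h, map_zero]
    · right
      rw [← map_inv₀, hstab]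
      exact h
  have hOm : ∀ x : F, x ∈ O'.comap (algebraMap F (Fx E s)) ↔ algebraMap F Ω x ∈ W := by
    intro x
    exact (hWm (algebraMap F (Fx E s) x)).symm
  have hOv : ∀ x : F, (O'.comap (algebraMap F (Fx E s))).valuation x < 1 ↔
      W.valuation (algebraMap F Ω x) < 1 := by
    intro x
    rw [vlt, vlt, hOm, map_inv₀, _root_.map_eq_zero]
  have hdown : ∀ (a : F) (e : E), W.valuation (algebraMap F Ω a - s.j (algebraMap E B e)) < 1 →
      ∃ c : k, algebraMap k E c = e := by
    intro a e he
    obtain ⟨c, hc⟩ := down_k (algebraMap E B e) (by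
      intro g
      have h1 := hvst g _ he
      rw [map_sub, s.sec, (s.s g).commutes] at h1
      have h2 : W.valuation (s.j (g (algebraMap E B e) - algebraMap E B e)) < 1 := by
        have h3 : s.j (g (algebraMap E B e) - algebraMap E B e) =
            (algebraMap F Ω a - s.j (algebraMap E B e)) -
              (algebraMap F Ω a - s.j (g (algebraMap E B e))) := by
          rw [map_sub]
          ring
        rw [h3]
        exact Valuation.map_sub_lt _ he h1
      exact sub_eq_zero.1 (jb_zero s W hkW _ h2))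
    refine ⟨c, ?_⟩
    apply (algebraMap E B).injective
    rw [← IsScalarTower.algebraMap_apply k E B, hc]
  have hcst : ∀ (a : F) (c : k), algebraMap F Ω a - s.j (algebraMap E B (algebraMap k E c)) =
      algebraMap F Ω (a - algebraMap k F c) := by
    intro a c
    rw [← IsScalarTower.algebraMap_apply k E B, s.j.commutes, map_sub,
      ← IsScalarTower.algebraMap_apply k F Ω]
  refine ⟨⟨?_, ?_, ?_, W, ?_, hstab⟩, ?_, ?_⟩
  · intro htop
    apply hO1
    rw [eq_top_iff]
    intro z _
    rw [← hWm]
    refine int_mem W (R := F) ?_ (Algebra.IsIntegral.isIntegral (z : Ω))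
    intro x
    rw [← hOm, htop]
    trivial
  · intro c
    rw [hOm, ← IsScalarTower.algebraMap_apply k F Ω]
    exact hkW c
  · intro a ha
    rw [hOm] at ha
    obtain ⟨e, he⟩ := hO3 (algebraMap F (Fx E s) a) ((hWm _).1 ha)
    rw [hcon O' W hW] at he
    have he2 : W.valuation (algebraMap F Ω a - s.j (algebraMap E B e)) < 1 := he
    obtain ⟨c, rfl⟩ := hdown a e he2
    refine ⟨c, ?_⟩
    rw [hOv, ← hcst]
    exact he2
  · ext x
    exact (hOm x).symm
  · intro O₁ hO₁
    obtain ⟨g1, g2, g3, W₁, hW₁, hs₁⟩ := hO₁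
    have hWm₁ : ∀ x : F, algebraMap F Ω x ∈ W₁ ↔ x ∈ O₁ := by
      intro x
      rw [← hW₁]
      exact Iff.rfl
    have hkW₁ : ∀ c : k, algebraMap k Ω c ∈ W₁ := by
      intro c
      rw [IsScalarTower.algebraMap_apply k F Ω, hWm₁]
      exact g2 c
    have hAr₁ : Ar E s (W₁.comap (algebraMap (Fx E s) Ω)) := by
      refine ⟨?_, ?_, ?_, W₁, rfl, fun h x => hs₁ _ x⟩
      · intro htop
        apply g1
        rw [eq_top_iff]
        intro x _
        rw [← hWm₁]
        have h1 : algebraMap F (Fx E s) x ∈ W₁.comap (algebraMap (Fx E s) Ω) := by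
          rw [htop]
          trivial
        exact h1
      · intro e
        show s.j (algebraMap E B e) ∈ W₁
        exact jb_mem s W₁ hkW₁ _
      · intro a ha
        obtain ⟨b, hb⟩ := res_alg s.j O₁ g2 g3 W₁ hW₁ (a : Ω) ha
        obtain ⟨e, he⟩ := down_E (E := E) k b (by
          intro h
          have h1 : W₁.valuation (s.s (resScal k E B h) ((a : Ω) - s.j b)) < 1 := by
            rw [vlt] at hb ⊢
            rcases hb with h2 | h2
            · left
              rw [h2, map_zero]
            · right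
              rw [← map_inv₀, hs₁]
              exact h2
          rw [map_sub, s.sec, a.2 h] at h1
          have h2 : W₁.valuation (s.j ((resScal k E B h) b - b)) < 1 := by
            have h3 : s.j ((resScal k E B h) b - b) =
                ((a : Ω) - s.j b) - ((a : Ω) - s.j ((resScal k E B h) b)) := by
              rw [map_sub]
              ring
            rw [h3]
            exact Valuation.map_sub_lt _ hb h1
          exact sub_eq_zero.1 (jb_zero s W₁ hkW₁ _ h2))
        refine ⟨e, ?_⟩
        rw [hcon _ W₁ rfl]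
        show W₁.valuation ((a : Ω) - s.j (algebraMap E B e)) < 1
        rw [he]
        exact hb
    have heq := hu _ hAr₁
    ext x
    rw [← hWm₁, hOm, show algebraMap F Ω x = ((algebraMap F (Fx E s) x : Fx E s) : Ω) from rfl, hWm,
      ← heq]
    exact Iff.rfl
  · intro x e hx
    rw [ValuationSubring.mem_nonunits_iff, hcon O' W hW] at hx
    have he2 : W.valuation (algebraMap F Ω x - s.j (algebraMap E B e)) < 1 := hx
    obtain ⟨c, rfl⟩ := hdown x e he2
    refine ⟨c, rfl, ?_⟩
    rw [ValuationSubring.mem_nonunits_iff, hOv, ← hcst]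
    exact he2

end

theorem comap_lt {F L : Type} [Field F] [Field L] (ι : F →+* L) (O : ValuationSubring L) (a : F) :
    (O.comap ι).valuation a < 1 ↔ O.valuation (ι a) < 1 := by
  rw [vlt, vlt, ← map_inv₀, _root_.map_eq_zero]
  exact Iff.rfl

/-- **descent** -/
theorem desc : Pool.Agent.Zk12.HD.S_DESC := by
  intro k E _ _ _ _ _ f d hE F Ω B _ _ _ _ _ _ _ _ _ _ x y hx hF hy s
  haveI halgk : Algebra.IsAlgebraic k B := IsAlgClosure.isAlgebraic
  haveI : IsAlgClosed B := IsAlgClosure.isAlgClosed k
  haveI : Algebra.IsAlgebraic k E := inferInstance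
  let φ : E →ₐ[k] B := IsAlgClosed.lift
  letI : Algebra E B := (φ : E →+* B).toAlgebra
  haveI : IsScalarTower k E B := IsScalarTower.of_algebraMap_eq fun c => (φ.commutes c).symm
  haveI : Algebra.IsAlgebraic E B := Algebra.IsAlgebraic.tower_top (K := k) E
  haveI : IsAlgClosure E B := ⟨inferInstance, inferInstance⟩
  haveI halg : Algebra.IsAlgebraic F Ω := IsAlgClosure.isAlgebraic
  haveI hcl : IsAlgClosed Ω := IsAlgClosure.isAlgClosed F
  haveI : Algebra.IsAlgebraic (Fx E s) Ω := Algebra.IsAlgebraic.tower_top (K := F) (Fx E s)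
  haveI : IsAlgClosure (Fx E s) Ω := ⟨hcl, inferInstance⟩
  letI : Algebra E (Fx E s) := (cE E s).toAlgebra
  letI : Algebra E Ω := ((s.j : B →+* Ω).comp (algebraMap E B)).toAlgebra
  haveI : IsScalarTower E (Fx E s) Ω := IsScalarTower.of_algebraMap_eq fun _ => rfl
  haveI hkEL : IsScalarTower k E (Fx E s) := IsScalarTower.of_algebraMap_eq fun c => by
    apply Subtype.ext
    show algebraMap k Ω c = s.j (algebraMap E B (algebraMap k E c))
    rw [← IsScalarTower.algebraMap_apply k E B, s.j.commutes]
  haveI hkFL : IsScalarTower k F (Fx E s) := IsScalarTower.of_algebraMap_eq fun c => by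
    apply Subtype.ext
    show algebraMap k Ω c = algebraMap F Ω (algebraMap k F c)
    exact IsScalarTower.algebraMap_apply k F Ω c
  let s' : GalSection E (Fx E s) Ω B :=
    { j := { (s.j : B →+* Ω) with commutes' := fun _ => rfl }
      s := sEh E s
      cont := sEh_cont s
      sec := fun g z => s.sec (resScal k E B g) z }
  have hxE : Transcendental E (algebraMap F (Fx E s) x) := by
    intro h
    have h1 : IsAlgebraic k (algebraMap F (Fx E s) x) := h.restrictScalars k
    exact hx ((isAlgebraic_algebraMap_iff (algebraMap F (Fx E s)).injective).1 h1)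
  have hFE : Algebra.IsAlgebraic (IntermediateField.adjoin E {algebraMap F (Fx E s) x})
      (Fx E s) := by
    haveI := hF
    haveI : Algebra.IsAlgebraic F (Fx E s) := inferInstance
    have hmem : ∀ c : IntermediateField.adjoin k {x}, algebraMap F (Fx E s) (c : F) ∈
        IntermediateField.adjoin E {algebraMap F (Fx E s) x} := by
      intro c
      have h1 : IntermediateField.adjoin k {x} ≤
          ((IntermediateField.adjoin E {algebraMap F (Fx E s) x}).restrictScalars k).comap
            (IsScalarTower.toAlgHom k F (Fx E s)) := by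
        rw [IntermediateField.adjoin_le_iff]
        rintro _ rfl
        exact IntermediateField.mem_adjoin_simple_self E _
      exact h1 c.2
    let θ : IntermediateField.adjoin k {x} →+*
        IntermediateField.adjoin E {algebraMap F (Fx E s) x} :=
      { toFun := fun c => ⟨algebraMap F (Fx E s) (c : F), hmem c⟩
        map_one' := Subtype.ext (by simp)
        map_mul' := fun a b => Subtype.ext (by simp)
        map_zero' := Subtype.ext (by simp)
        map_add' := fun a b => Subtype.ext (by simp) }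
    haveI : Algebra.IsAlgebraic (IntermediateField.adjoin k {x}) (Fx E s) :=
      Algebra.IsAlgebraic.trans (IntermediateField.adjoin k {x}) F (Fx E s)
    refine ⟨fun z => ?_⟩
    obtain ⟨p, hp0, hp⟩ := Algebra.IsAlgebraic.isAlgebraic
      (R := IntermediateField.adjoin k {x}) z
    refine ⟨p.map θ, (Polynomial.map_ne_zero_iff θ.injective).2 hp0, ?_⟩
    rw [Polynomial.aeval_def, Polynomial.eval₂_map]
    exact hp
  have heq : algebraMap E (Fx E s) (algebraMap k E d) * (algebraMap F (Fx E s) y) ^ 2 =
      aeval (algebraMap F (Fx E s) x) (f.map (algebraMap k E)) := by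
    rw [← IsScalarTower.algebraMap_apply k E (Fx E s), aeval_map_algebraMap,
      aeval_algebraMap_apply, ← hy, map_mul, map_pow, ← IsScalarTower.algebraMap_apply k F (Fx E s)]
  obtain ⟨O', hA, hU, hC⟩ := hE (Fx E s) Ω B (algebraMap F (Fx E s) x) (algebraMap F (Fx E s) y)
    hxE hFE heq s'
  obtain ⟨h1, h2, h3⟩ := desc_up s O' hA (fun O'' h => hU O'' h)
  refine ⟨O'.comap (algebraMap F (Fx E s)), h1, h2, ?_⟩
  rcases hC with ⟨e, he, hxe⟩ | ⟨hodd, hinv⟩
  · obtain ⟨c, rfl, hc⟩ := h3 x e hxe
    left
    refine ⟨c, ?_, hc⟩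
    apply (algebraMap k E).injective
    rw [map_zero, ← he, eval_map, eval₂_at_apply]
  · right
    rw [natDegree_map] at hodd
    refine ⟨hodd, ?_⟩
    rw [ValuationSubring.mem_nonunits_iff] at hinv ⊢
    rw [comap_lt, map_inv₀]
    exact hinv

end Pool.Agent.Zk78.HD
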